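import Pool.Agent.helper76.FP.Spec

/-!
# Project FP (MP_bf63dc_nt), row ENU: the bound for the number of bad tuples
-/

set_option autoImplicit false

namespace Pool.Agent.FP

open Finset
open Pool.Agent.FR (mean)
open Pool.Agent.DP (CORE2_stmt)

theorem ENU_mean {α : Type} [Fintype α] (f : α → ℝ) (hf : ∀ x, |f x| ≤ 1) : mean (fun x => f x ^ 2) ≤ 1 := by
  unfold mean
  apply div_le_one_of_le₀ _ (by positivity)
  calc ∑ x, f x ^ 2 ≤ ∑ _x : α, (1 : ℝ) := by
        refine Finset.sum_le_sum (fun x _ => ?_)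
        rw [← sq_abs]
        exact pow_le_one₀ (abs_nonneg _) (hf x)
    _ = (Fintype.card α : ℝ) := by simp

theorem ENU (hMDU : MDU_stmt) (hCORE : CORE2_stmt) : ENU_stmt := by
  intro k hk
  obtain ⟨c₀, hc0, -, h⟩ := hMDU k hk
  refine ⟨32 / c₀ ^ 4, by positivity, ?_⟩
  intro ε hε hε1 N s hF
  have hN : (0 : ℝ) < (N : ℝ) + 1 := by positivity
  obtain ⟨Φ, Ξ, i1, i2, i3, i4, A, g, B, hA, hB, hc, ho⟩ := h ε hε hε1 N s hF (1 / ((N : ℝ) + 1)) (by positivity)
  have h1 := hCORE Φ Ξ (Fin N) Finset.univ A g B (c₀ * ε) (1 / ((N : ℝ) + 1)) (by positivity) hA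
    (fun τ _ => ENU_mean (B τ) (hB τ)) (by positivity)
    (by
      rw [Finset.card_univ, Fintype.card_fin, div_mul_eq_mul_div, one_mul]
      exact div_le_one_of_le₀ (by linarith) hN.le)
    (fun τ _ τ' _ hne => ho τ τ' hne) (fun τ _ => (hc τ).trans (le_abs_self _))
  rw [Finset.card_univ, Fintype.card_fin] at h1
  refine h1.trans (le_of_eq ?_)
  rw [mul_pow, div_div]

end Pool.Agent.FP
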